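import Pool.Agent.MNE.StmtsD

set_option autoImplicit false

namespace Pool.Agent.MNE.H10

open Finset Filter Topology Polynomial

theorem evalEval_sum (G : (ℚ[X])[X]) (N Q : ℕ) (hQ : G.natDegree < Q)
    (hN : ∀ l, (G.coeff l).natDegree < N) (x y : ℚ) :
    G.evalEval x y = ∑ p ∈ Finset.range N ×ˢ Finset.range Q,
      (G.coeff p.2).coeff p.1 * (x ^ p.1 * y ^ p.2) := by
  unfold Polynomial.evalEval
  rw [Polynomial.eval_eq_sum_range' hQ, Polynomial.eval_finsetSum, Finset.sum_product_right]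
  refine Finset.sum_congr rfl fun l _ => ?_
  rw [Polynomial.eval_mul, Polynomial.eval_pow, Polynomial.eval_C,
    Polynomial.eval_eq_sum_range' (hN l), Finset.sum_mul]
  refine Finset.sum_congr rfl fun i _ => ?_
  ring

theorem small_zero (wei : WeiStmt) (h M n P Q : ℕ) (σ c κ : ℚ) (l : Filter (ℕ × ℕ))
    (hB : Br h M n P Q σ c κ) (hL : Lim h M n P Q σ c κ l) (G : (ℚ[X])[X])
    (hG : G.natDegree < Q)
    (hv : ∀ᶠ p : ℕ × ℕ in l, G.evalEval (p.1 : ℚ) (p.2 : ℚ) = 0) : G = 0 := by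
  by_contra hG0
  have := hL.ne
  obtain ⟨N, hN⟩ : ∃ N, ∀ l, (G.coeff l).natDegree < N := by
    refine ⟨(G.support.sup fun l => (G.coeff l).natDegree) + 1, fun l => ?_⟩
    by_cases hl : l ∈ G.support
    · exact Nat.lt_succ_of_le (Finset.le_sup (f := fun l => (G.coeff l).natDegree) hl)
    · rw [Polynomial.notMem_support_iff] at hl
      rw [hl]
      simp
  let s0 : Finset (ℕ × ℕ) := (Finset.range N ×ˢ Finset.range Q).filter
    fun p => (G.coeff p.2).coeff p.1 ≠ 0
  let s : Finset (ℤ × ℕ) := s0.map ⟨fun p => ((p.1 : ℤ), p.2), by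
    rintro ⟨a, b⟩ ⟨a', b'⟩ hh
    simp only [Prod.mk.injEq, Nat.cast_inj] at hh
    exact Prod.ext hh.1 hh.2⟩
  let a : ℤ × ℕ → ℝ := fun e => (((G.coeff e.2).coeff e.1.toNat : ℚ) : ℝ)
  have hs : ∀ e ∈ s, e.2 < Q ∧ a e ≠ 0 := by
    intro e he
    obtain ⟨p, hp, rfl⟩ := Finset.mem_map.1 he
    simp only [s0, Finset.mem_filter, Finset.mem_product, Finset.mem_range] at hp
    refine ⟨hp.1.2, ?_⟩
    show (((G.coeff p.2).coeff ((p.1 : ℤ)).toNat : ℚ) : ℝ) ≠ 0
    rw [Int.toNat_natCast]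
    exact_mod_cast hp.2
  have hne : s.Nonempty := by
    obtain ⟨l0, hl0⟩ : ∃ l0, G.coeff l0 ≠ 0 := by
      by_contra hcon
      push Not at hcon
      exact hG0 (Polynomial.ext fun k => by rw [hcon k]; simp)
    obtain ⟨i0, hi0⟩ : ∃ i0, (G.coeff l0).coeff i0 ≠ 0 := by
      by_contra hcon
      push Not at hcon
      exact hl0 (Polynomial.ext fun k => by rw [hcon k]; simp)
    refine Finset.Nonempty.map ⟨(i0, l0), ?_⟩
    simp only [s0, Finset.mem_filter, Finset.mem_product, Finset.mem_range]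
    refine ⟨⟨?_, ?_⟩, hi0⟩
    · exact lt_of_le_of_lt (Polynomial.le_natDegree_of_ne_zero hi0) (hN l0)
    · exact lt_of_le_of_lt (Polynomial.le_natDegree_of_ne_zero hl0) hG
  obtain ⟨e0, he0, hmax⟩ := Finset.exists_max_image s (fun e => (Q : ℤ) * e.1 + P * e.2) hne
  obtain ⟨c0, hc0, hev⟩ := wei h M n P Q σ c κ l hB hL s a hs e0 he0 hmax
  have hU := hL.U.eventually (eventually_gt_atTop (0 : ℝ))
  obtain ⟨p, ⟨hp1, hp2⟩, hp3⟩ := ((hev.and hv).and hU).exists
  have hsum : ∑ e ∈ s, a e * ((p.1 : ℝ) ^ e.1 * (p.2 : ℝ) ^ e.2) = 0 := by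
    have h1 : ∑ e ∈ s, a e * ((p.1 : ℝ) ^ e.1 * (p.2 : ℝ) ^ e.2) =
        ((G.evalEval (p.1 : ℚ) (p.2 : ℚ) : ℚ) : ℝ) := by
      rw [evalEval_sum G N Q hG hN]
      simp only [s, s0]
      rw [Finset.sum_map, Finset.sum_filter]
      push_cast
      refine Finset.sum_congr rfl fun q _ => ?_
      by_cases hq : (G.coeff q.2).coeff q.1 = 0
      · simp [hq]
      · rw [if_pos hq]
        show (((G.coeff q.2).coeff ((q.1 : ℤ)).toNat : ℚ) : ℝ) *
          ((p.1 : ℝ) ^ ((q.1 : ℤ)) * (p.2 : ℝ) ^ q.2) = _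
        rw [Int.toNat_natCast, zpow_natCast]
    rw [h1, hp2]
    simp
  rw [hsum, abs_zero] at hp1
  exact absurd hp1 (not_le.2 (mul_pos hc0 (Real.rpow_pos_of_pos hp3 _)))

theorem sgn_pow (σ : ℚ) (hσ : σ = 1 ∨ σ = -1) (M : ℕ) : σ ^ M * σ ^ M = 1 := by
  rw [← mul_pow]
  rcases hσ with rfl | rfl <;> simp

/-- `σ^M Fp` is monic -/
theorem fp_monic (h M n P Q : ℕ) (σ c κ : ℚ) (hB : Br h M n P Q σ c κ) :
    (C (C (σ ^ M)) * Fp h M n Q σ c κ).Monic := by
  have hh : 0 < h := by rcases hB.hh with h1 | h1 <;> omega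
  have hσ0 : σ ≠ 0 := by rcases hB.hσ with rfl | rfl <;> norm_num
  have hM := hB.hM
  have hP := hB.hP
  have hPQ := hB.hPQ
  have hn := hB.hn
  have hM0 : 0 < M := by
    rcases Nat.eq_zero_or_pos M with h0 | h0
    · rw [h0] at hM; omega
    · exact h0
  have h0 : (C (C σ) * X ^ h + C (X ^ h) : (ℚ[X])[X]) = C (C σ) * (X ^ h + C (C σ * X ^ h)) := by
    have hs : (C (C σ) * C (C σ) : (ℚ[X])[X]) = 1 := by
      rw [← C_mul, ← C_mul]
      rcases hB.hσ with rfl | rfl <;> simp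
    rw [C_mul, mul_add, ← mul_assoc, hs, one_mul]
  have h1 : (C (C (σ ^ M)) * (C (X ^ h) + C (C σ) * X ^ h) ^ M : (ℚ[X])[X]) =
      (X ^ h + C (C σ * X ^ h)) ^ M := by
    rw [add_comm (C (X ^ h)), h0, mul_pow, ← mul_assoc, C_pow, C_pow, ← mul_pow]
    have hs : (C (C σ) * C (C σ) : (ℚ[X])[X]) = 1 := by
      rw [← C_mul, ← C_mul]
      rcases hB.hσ with rfl | rfl <;> simp
    rw [hs, one_pow, one_mul]
  have hmon : ((X ^ h + C (C σ * X ^ h)) ^ M : (ℚ[X])[X]).Monic :=
    (monic_X_pow_add_C _ hh.ne').pow M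
  have hdeg : ((X ^ h + C (C σ * X ^ h)) ^ M : (ℚ[X])[X]).natDegree = h * M := by
    rw [(monic_X_pow_add_C _ hh.ne').natDegree_pow, natDegree_X_pow_add_C, mul_comm]
  have hre : C (C (σ ^ M)) * Fp h M n Q σ c κ = (X ^ h + C (C σ * X ^ h)) ^ M +
      (C (C (σ ^ M)) * (C (C c) * (C (X ^ h) - C (C σ) * X ^ h) ^ n) -
        C (C (σ ^ M)) * (C (C κ * X ^ Q) * X ^ Q)) := by
    rw [← h1]
    unfold Fp
    ring
  rw [hre]
  refine hmon.add_of_left ?_
  rw [degree_eq_natDegree hmon.ne_zero, hdeg]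
  refine lt_of_le_of_lt (degree_sub_le _ _) (max_lt ?_ ?_)
  · have hd : (C (C (σ ^ M)) * (C (C c) * (C (X ^ h) - C (C σ) * X ^ h) ^ n) :
        (ℚ[X])[X]).natDegree ≤ h * n := by
      refine (natDegree_C_mul_le _ _).trans ((natDegree_C_mul_le _ _).trans
        ((natDegree_pow_le).trans ?_))
      rw [mul_comm h n]
      refine Nat.mul_le_mul_left n ?_
      refine (natDegree_sub_le _ _).trans (max_le ?_ ?_)
      · rw [natDegree_C]; exact Nat.zero_le _
      · exact (natDegree_C_mul_le _ _).trans (natDegree_X_pow_le h)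
    refine lt_of_le_of_lt (degree_le_natDegree) ?_
    exact_mod_cast lt_of_le_of_lt hd (by omega)
  · have hd : (C (C (σ ^ M)) * (C (C κ * X ^ Q) * X ^ Q) : (ℚ[X])[X]).natDegree ≤ Q :=
      (natDegree_C_mul_le _ _).trans ((natDegree_C_mul_le _ _).trans (natDegree_X_pow_le Q))
    refine lt_of_le_of_lt (degree_le_natDegree) ?_
    exact_mod_cast lt_of_le_of_lt hd (by omega)

theorem fac (wei : WeiStmt) (exr : ExrStmt) : FacStmt := by
  intro h M n P Q σ c κ l hB hL
  obtain ⟨R, hR0, hRQ, hRv⟩ := exr h M n P Q σ c κ l hB hL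
  have hRdeg : R.natDegree = Q := by
    refine le_antisymm hRQ ?_
    by_contra hlt
    exact hR0 (small_zero wei h M n P Q σ c κ l hB hL R (not_le.1 hlt) hRv)
  let K := FractionRing ℚ[X]
  let φ : ℚ[X] →+* K := algebraMap ℚ[X] K
  have hφ : Function.Injective φ := IsFractionRing.injective ℚ[X] K
  have hR'0 : R.map φ ≠ 0 := (Polynomial.map_ne_zero_iff hφ).2 hR0
  have hR'deg : (R.map φ).natDegree = Q := by
    rw [Polynomial.natDegree_map_eq_of_injective hφ, hRdeg]
  have hQ0 : 0 < Q := lt_trans hB.hP hB.hPQ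
  have hdvd : R.map φ ∣ (Fp h M n Q σ c κ).map φ := by
    have hdm := EuclideanDomain.div_add_mod ((Fp h M n Q σ c κ).map φ) (R.map φ)
    set q' := (Fp h M n Q σ c κ).map φ / R.map φ with hq'
    set r' := (Fp h M n Q σ c κ).map φ % R.map φ with hr'
    obtain ⟨b1, hb1m, hb1⟩ := IsLocalization.integerNormalization_spec
      (nonZeroDivisors ℚ[X]) q'
    obtain ⟨b2, hb2m, hb2⟩ := IsLocalization.integerNormalization_spec
      (nonZeroDivisors ℚ[X]) r'
    set q1 := IsLocalization.integerNormalization (nonZeroDivisors ℚ[X]) q' with hq1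
    set r1 := IsLocalization.integerNormalization (nonZeroDivisors ℚ[X]) r' with hr1
    have e1 : q1.map φ = C (φ b1) * q' := by
      rw [hb1]
      ext k
      simp [Algebra.smul_def, φ]
    have e2 : r1.map φ = C (φ b2) * r' := by
      rw [hb2]
      ext k
      simp [Algebra.smul_def, φ]
    have e3 : C (b1 * b2 : ℚ[X]) * Fp h M n Q σ c κ = R * (C b2 * q1) +
        C b1 * r1 := by
      apply Polynomial.map_injective φ hφ
      rw [Polynomial.map_mul, Polynomial.map_add, Polynomial.map_mul, Polynomial.map_mul,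
        Polynomial.map_mul, e1, e2, ← hdm]
      simp only [Polynomial.map_C, map_mul, Polynomial.map_mul]
      ring
    have hb10 : b1 ≠ 0 := nonZeroDivisors.ne_zero hb1m
    have hb20 : b2 ≠ 0 := nonZeroDivisors.ne_zero hb2m
    have hrv : ∀ᶠ p : ℕ × ℕ in l,
        (C b1 * r1).evalEval (p.1 : ℚ) (p.2 : ℚ) = 0 := by
      filter_upwards [hRv, hL.F] with p hp1 hp2
      have := congrArg (fun G : (ℚ[X])[X] => G.evalEval (p.1 : ℚ) (p.2 : ℚ)) e3
      simp only [Polynomial.evalEval_mul, Polynomial.evalEval_add, hp1, hp2, mul_zero,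
        zero_mul, zero_add] at this
      rw [Polynomial.evalEval_mul]
      exact this.symm
    have hr1deg : (C b1 * r1).natDegree < Q := by
      refine lt_of_le_of_lt (natDegree_C_mul_le _ _) ?_
      by_cases hr0 : r' = 0
      · have : r1.map φ = 0 := by rw [e2, hr0, mul_zero]
        rw [Polynomial.map_eq_zero_iff hφ] at this
        rw [this]
        simpa using hQ0
      · have hd := EuclideanDomain.mod_lt ((Fp h M n Q σ c κ).map φ) hR'0
        have hd' : r'.degree < (R.map φ).degree := hd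
        have hd2 : r'.natDegree < Q := by
          rw [← hR'deg]
          exact Polynomial.natDegree_lt_natDegree hr0 hd'
        rw [← Polynomial.natDegree_map_eq_of_injective hφ r1, e2]
        exact lt_of_le_of_lt (natDegree_C_mul_le _ _) hd2
    have hz := small_zero wei h M n P Q σ c κ l hB hL _ hr1deg hrv
    have hr10 : r1 = 0 := by
      rcases mul_eq_zero.1 hz with hz1 | hz1
      · exact absurd (C_eq_zero.1 hz1) hb10
      · exact hz1
    have hr'0 : r' = 0 := by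
      rw [hr10, Polynomial.map_zero] at e2
      rcases mul_eq_zero.1 e2.symm with hz1 | hz1
      · exact absurd ((map_eq_zero_iff φ hφ).1 (C_eq_zero.1 hz1)) hb20
      · exact hz1
    rw [hr'0, add_zero] at hdm
    exact ⟨q', hdm.symm⟩
  have hmon := fp_monic h M n P Q σ c κ hB
  have hdvd2 : R.map φ ∣ (C (C (σ ^ M)) * Fp h M n Q σ c κ).map φ := by
    rw [Polynomial.map_mul]
    exact hdvd.mul_left _
  obtain ⟨H, hH⟩ := IsIntegrallyClosed.eq_map_mul_C_of_dvd K hmon hdvd2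
  have hlc : (R.map φ).leadingCoeff = φ R.leadingCoeff :=
    Polynomial.leadingCoeff_map_of_injective hφ R
  have hHR : H * C R.leadingCoeff = R := by
    apply Polynomial.map_injective φ hφ
    rw [Polynomial.map_mul, Polynomial.map_C, ← hlc]
    exact hH
  have hr0 : R.leadingCoeff ≠ 0 := Polynomial.leadingCoeff_ne_zero.2 hR0
  have hHmon : H.Monic := by
    have := congrArg Polynomial.leadingCoeff hHR
    rw [Polynomial.leadingCoeff_mul, Polynomial.leadingCoeff_C] at this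
    exact mul_right_cancel₀ hr0 (by rw [this, one_mul])
  have hHdeg : H.natDegree = Q := by
    rw [← hRdeg, ← hHR, Polynomial.natDegree_mul_C hr0]
  have hHd : H ∣ C (C (σ ^ M)) * Fp h M n Q σ c κ := by
    rw [← Polynomial.map_dvd_map φ hφ hHmon]
    refine Dvd.dvd.trans ⟨C (φ R.leadingCoeff), ?_⟩ hdvd2
    rw [← hlc]
    exact hH.symm
  have hHF : H ∣ Fp h M n Q σ c κ := by
    have : Fp h M n Q σ c κ = C (C (σ ^ M)) * (C (C (σ ^ M)) * Fp h M n Q σ c κ) := by
      rw [← mul_assoc, ← C_mul, ← C_mul, sgn_pow σ hB.hσ M]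
      simp
    rw [this]
    exact hHd.mul_left _
  obtain ⟨H2, hH2⟩ := hHF
  refine ⟨H, H2, hH2, hHmon, hHdeg, ?_⟩
  have hrU : ∀ᶠ p : ℕ × ℕ in l, R.leadingCoeff.eval (p.1 : ℚ) ≠ 0 := by
    have hfin : (R.leadingCoeff.rootSet ℚ).Finite := Polynomial.rootSet_finite _ _
    obtain ⟨B, hB'⟩ : ∃ B : ℝ, ∀ x ∈ R.leadingCoeff.roots.toFinset, (x : ℝ) ≤ B := by
      obtain ⟨B, hB'⟩ := (R.leadingCoeff.roots.toFinset.image (fun x : ℚ => (x : ℝ))).bddAbove
      exact ⟨B, fun x hx => hB' (by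
        rw [Finset.coe_image]
        exact ⟨x, hx, rfl⟩)⟩
    filter_upwards [hL.U.eventually (eventually_gt_atTop B)] with p hp hz
    have hmem : (p.1 : ℚ) ∈ R.leadingCoeff.roots.toFinset := by
      rw [Multiset.mem_toFinset, Polynomial.mem_roots hr0]
      exact hz
    have := hB' _ hmem
    push_cast at this
    exact absurd this (not_le.2 hp)
  filter_upwards [hRv, hrU] with p hp1 hp2
  rw [← hHR, Polynomial.evalEval_mul, Polynomial.evalEval_C] at hp1
  rcases mul_eq_zero.1 hp1 with hz | hz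
  · exact hz
  · exact absurd hz hp2

end Pool.Agent.MNE.H10
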